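import Pool.Agent.H626.LE.Final

/-!
# MP_7a9f08_co: the pineapple conjecture for connected graphs on `n ≥ 200` vertices
-/

set_option autoImplicit false

namespace Pool.Agent.Results.MP_7a9f08_co.PineappleLargeN

/-- Laplacian energy of a graph on `n` vertices: the sum of the `|λ - 2 m / n|` over the roots `λ`
of the characteristic polynomial of the Laplacian matrix, with multiplicity; `m` is the number of
edges. -/
noncomputable def lapEnergy {n : ℕ} (G : SimpleGraph (Fin n)) [DecidableRel G.Adj] : ℝ :=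
  ((G.lapMatrix ℝ).charpoly.roots.map
    (fun x => |x - 2 * (G.edgeFinset.card : ℝ) / (n : ℝ)|)).sum

/-- The pineapple `PA(n, p)`: a complete graph on the vertices `0, …, p - 1`; all the other
vertices are joined to the vertex `0` only. -/
def PA (n p : ℕ) : SimpleGraph (Fin n) where
  Adj i j := i ≠ j ∧ (i.1 = 0 ∨ j.1 = 0 ∨ (i.1 < p ∧ j.1 < p))
  symm := ⟨fun i j h => ⟨h.1.symm, by tauto⟩⟩
  loopless := ⟨fun _ h => h.1 rfl⟩

instance (n p : ℕ) : DecidableRel (PA n p).Adj :=
  fun i j => inferInstanceAs (Decidable (i ≠ j ∧ (i.1 = 0 ∨ j.1 = 0 ∨ (i.1 < p ∧ j.1 < p))))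

/-- The Laplacian energies of the connected graphs on `n` vertices. -/
def Energies (n : ℕ) : Set ℝ :=
  {x : ℝ | ∃ (G : SimpleGraph (Fin n)) (_ : DecidableRel G.Adj), G.Connected ∧ lapEnergy G = x}

/-- The value `M(n)`, with `k = ⌊2n/3⌋`. -/
noncomputable def M (n : ℕ) : ℝ :=
  2 * (((n : ℝ) - (2 * n / 3 : ℕ)) *
      ((2 * n / 3 : ℕ) * ((2 * n / 3 : ℕ) - 1) + 2 * ((n : ℝ) - 1)) / n
    - ((n : ℝ) - 1 - (2 * n / 3 : ℕ)))

/-- For every `n ≥ 200` the maximum of the Laplacian energy over the connected graphs on `n`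
vertices is `M(n)`, and it is attained by the pineapple `PA(n, ⌊2n/3⌋ + 1)`. -/
theorem result (n : ℕ) (hn : 200 ≤ n) :
    IsGreatest (Energies n) (M n) ∧ (PA n (2 * n / 3 + 1)).Connected ∧
      lapEnergy (PA n (2 * n / 3 + 1)) = M n := by
  have hM : M n = 2 * Pool.Agent.Q260.TE.Pine.g n (2 * n / 3) := by
    have hn' : (n : ℝ) ≠ 0 := by
      have : n ≠ 0 := by omega
      exact_mod_cast this
    unfold M Pool.Agent.Q260.TE.Pine.g
    field_simp
    ring
  have hu : ∀ (G : SimpleGraph (Fin n)) [DecidableRel G.Adj], G.Connected →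
      lapEnergy G ≤ M n := by
    intro G _ hG
    rw [hM]
    exact Pool.Agent.H626.LE.upper hn G hG
  have hl : M n ≤ lapEnergy (PA n (2 * n / 3 + 1)) := by
    rw [hM]
    exact Pool.Agent.H626.LE.lower (by omega)
  have hc : (PA n (2 * n / 3 + 1)).Connected :=
    Pool.Agent.H626.LE.pa_connected (by omega)
  have he : lapEnergy (PA n (2 * n / 3 + 1)) = M n := le_antisymm (hu _ hc) hl
  refine ⟨⟨⟨_, inferInstance, hc, he⟩, ?_⟩, hc, he⟩
  rintro x ⟨G, inst, hG, rfl⟩
  exact hu G hG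

end Pool.Agent.Results.MP_7a9f08_co.PineappleLargeN
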